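import Mathlib
import Pool.Agent.Y16.AF.StmA

/-! Sum of `|n|^-3` over the nonzero integer points of a box (job AF-Z3 of project AF). -/

set_option autoImplicit false

open MeasureTheory Set
open scoped Topology

namespace Pool.Agent.Y828.AF

/-- Euclidean space. -/
abbrev W := EuclideanSpace ℝ (Fin 3)

/-- The half open unit cube around `n`. -/
def Q (n : Fin 3 → ℤ) : Set W := {x | ∀ j, (n j : ℝ) - 1 / 2 ≤ x j ∧ x j < n j + 1 / 2}

/-- The function `|x|^-3`. -/
noncomputable def fn (x : W) : ℝ := 1 / ‖x‖ ^ 3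

/-- The integer point as a point of space. -/
noncomputable def pt (n : Fin 3 → ℤ) : W := WithLp.toLp 2 (fun j => (n j : ℝ))

lemma pt_apply (n : Fin 3 → ℤ) (j : Fin 3) : pt n j = n j := rfl

lemma Q_eq (n : Fin 3 → ℤ) :
    Q n = (MeasurableEquiv.toLp 2 (Fin 3 → ℝ)).symm ⁻¹'
      (Set.pi univ (fun j => Ico ((n j : ℝ) - 1 / 2) (n j + 1 / 2))) := by
  ext x
  simp only [Q, mem_ofPred_eq, mem_preimage, mem_pi, mem_univ, true_implies, mem_Ico]
  rfl

lemma Q_meas (n : Fin 3 → ℤ) : MeasurableSet (Q n) := by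
  rw [Q_eq]
  exact (MeasurableEquiv.toLp 2 (Fin 3 → ℝ)).symm.measurable
    (MeasurableSet.univ_pi (fun j => measurableSet_Ico))

lemma Q_vol (n : Fin 3 → ℤ) : volume (Q n) = 1 := by
  rw [Q_eq, (EuclideanSpace.volume_preserving_symm_measurableEquiv_toLp (Fin 3)).measure_preimage
    (MeasurableSet.univ_pi (fun j => measurableSet_Ico)).nullMeasurableSet]
  rw [Real.volume_pi_Ico]
  have : ∀ j : Fin 3, ENNReal.ofReal ((n j : ℝ) + 1 / 2 - (n j - 1 / 2)) = 1 := by
    intro j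
    rw [show (n j : ℝ) + 1 / 2 - (n j - 1 / 2) = 1 by ring, ENNReal.ofReal_one]
  rw [Finset.prod_congr rfl (fun j _ => this j), Finset.prod_const_one]

lemma Q_disj {n m : Fin 3 → ℤ} (h : n ≠ m) : Disjoint (Q n) (Q m) := by
  rw [Set.disjoint_left]
  intro x hx hy
  apply h
  funext j
  have h1 := hx j
  have h2 := hy j
  have h3 : (n j : ℝ) < m j + 1 := by linarith [h1.1, h2.2]
  have h4 : (m j : ℝ) < n j + 1 := by linarith [h2.1, h1.2]
  have h5 : n j < m j + 1 := by exact_mod_cast h3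
  have h6 : m j < n j + 1 := by exact_mod_cast h4
  omega

lemma norm_sq_eq (x : W) : ‖x‖ ^ 2 = ∑ j, x j ^ 2 := by
  rw [EuclideanSpace.norm_sq_eq]
  simp

lemma coord_le (x : W) (j : Fin 3) : |x j| ≤ ‖x‖ := by
  have h := norm_sq_eq x
  have h1 : x j ^ 2 ≤ ∑ j, x j ^ 2 :=
    Finset.single_le_sum (f := fun j => x j ^ 2) (fun i _ => sq_nonneg _) (Finset.mem_univ j)
  rw [← h] at h1
  exact abs_le_of_sq_le_sq h1 (norm_nonneg x)

lemma Q_dist {n : Fin 3 → ℤ} {x : W} (hx : x ∈ Q n) : |‖x‖ - ‖pt n‖| ≤ 1 := by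
  have h1 : ‖x - pt n‖ ^ 2 ≤ 1 := by
    rw [norm_sq_eq]
    have : ∀ j, (x - pt n) j ^ 2 ≤ 1 / 4 := by
      intro j
      have h2 := hx j
      have e : (x - pt n) j = x j - n j := rfl
      rw [e]
      nlinarith [h2.1, h2.2]
    calc ∑ j, (x - pt n) j ^ 2 ≤ ∑ _j : Fin 3, (1 / 4 : ℝ) := Finset.sum_le_sum (fun j _ => this j)
      _ ≤ 1 := by simp; norm_num
  have h3 : ‖x - pt n‖ ≤ 1 := by
    nlinarith [norm_nonneg (x - pt n)]
  exact (abs_norm_sub_norm_le x (pt n)).trans h3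

lemma pt_ge {n : Fin 3 → ℤ} (hn : n ≠ 0) : 1 ≤ ‖pt n‖ := by
  obtain ⟨j, hj⟩ : ∃ j, n j ≠ 0 := by
    by_contra h
    push Not at h
    exact hn (funext h)
  have h1 := coord_le (pt n) j
  rw [pt_apply] at h1
  have h2 : (1 : ℝ) ≤ |(n j : ℝ)| := by
    have := Int.one_le_abs hj
    exact_mod_cast this
  linarith

lemma Q_ge {n : Fin 3 → ℤ} (hn : n ≠ 0) {x : W} (hx : x ∈ Q n) : 1 / 2 ≤ ‖x‖ := by
  obtain ⟨j, hj⟩ : ∃ j, n j ≠ 0 := by
    by_contra h
    push Not at h
    exact hn (funext h)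
  have h1 := coord_le x j
  have h2 := hx j
  refine le_trans ?_ h1
  rcases lt_or_gt_of_ne hj with h | h
  · have h3 : (n j : ℝ) ≤ -1 := by
      have : n j ≤ -1 := by omega
      exact_mod_cast this
    rw [abs_of_nonpos (by linarith [h2.2])]
    linarith [h2.2]
  · have h3 : (1 : ℝ) ≤ n j := by
      have : 1 ≤ n j := by omega
      exact_mod_cast this
    rw [abs_of_nonneg (by linarith [h2.1])]
    linarith [h2.1]

lemma fn_nonneg (x : W) : 0 ≤ fn x := by unfold fn; positivity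

lemma fn_meas : Measurable fn := by
  unfold fn
  fun_prop

lemma fn_le {x : W} (hx : 1 / 2 ≤ ‖x‖) : fn x ≤ 8 := by
  unfold fn
  rw [div_le_iff₀ (by positivity)]
  have : (1 / 2 : ℝ) ^ 3 ≤ ‖x‖ ^ 3 := pow_le_pow_left₀ (by norm_num) hx 3
  linarith

/-- Comparison of the value at the centre and the values in the cube. -/
lemma fn_cmp {n : Fin 3 → ℤ} (hn : n ≠ 0) {x : W} (hx : x ∈ Q n) :
    |fn x - fn (pt n)| ≤ 189 / ‖pt n‖ ^ 4 := by
  have h1 := Q_dist hx
  have h2 := pt_ge hn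
  have h3 := Q_ge hn hx
  rw [abs_le] at h1
  set a := ‖x‖ with ha
  set b := ‖pt n‖ with hb
  have hab : b ≤ 3 * a := by linarith [h1.1]
  have hba : a ≤ 2 * b := by linarith [h1.2]
  have ha0 : 0 < a := by linarith
  have hb0 : 0 < b := by linarith
  have e : fn x - fn (pt n) = (b - a) * (a ^ 2 + a * b + b ^ 2) / (a ^ 3 * b ^ 3) := by
    unfold fn
    rw [← ha, ← hb]
    field_simp
    ring
  rw [e, abs_div, abs_of_pos (show 0 < a ^ 3 * b ^ 3 by positivity), abs_mul,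
    abs_of_pos (show 0 < a ^ 2 + a * b + b ^ 2 by positivity)]
  have h4 : |b - a| ≤ 1 := by
    rw [abs_le]
    constructor <;> linarith [h1.1, h1.2]
  have h5 : a ^ 2 + a * b + b ^ 2 ≤ 7 * b ^ 2 := by nlinarith
  have h6 : b ^ 3 ≤ 27 * a ^ 3 := by
    have := pow_le_pow_left₀ hb0.le hab 3
    nlinarith
  rw [div_le_div_iff₀ (by positivity) (by positivity)]
  have h7 : |b - a| * (a ^ 2 + a * b + b ^ 2) ≤ 7 * b ^ 2 := by
    calc |b - a| * (a ^ 2 + a * b + b ^ 2) ≤ 1 * (7 * b ^ 2) :=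
          mul_le_mul h4 h5 (by positivity) (by norm_num)
      _ = 7 * b ^ 2 := one_mul _
  calc |b - a| * (a ^ 2 + a * b + b ^ 2) * b ^ 4 ≤ 7 * b ^ 2 * b ^ 4 :=
        mul_le_mul_of_nonneg_right h7 (by positivity)
    _ = 7 * b ^ 3 * b ^ 3 := by ring
    _ ≤ 7 * (27 * a ^ 3) * b ^ 3 := by
        apply mul_le_mul_of_nonneg_right _ (by positivity)
        linarith
    _ = 189 * (a ^ 3 * b ^ 3) := by ring

lemma fn_int {n : Fin 3 → ℤ} (hn : n ≠ 0) : IntegrableOn fn (Q n) := by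
  refine Measure.integrableOn_of_bounded (M := 8) (by rw [Q_vol]; simp)
    fn_meas.aestronglyMeasurable ?_
  refine (ae_restrict_iff' (Q_meas n)).2 (ae_of_all _ (fun x hx => ?_))
  rw [Real.norm_of_nonneg (fn_nonneg x)]
  exact fn_le (Q_ge hn hx)

lemma Q_cmp {n : Fin 3 → ℤ} (hn : n ≠ 0) :
    |fn (pt n) - ∫ x in Q n, fn x| ≤ 189 / ‖pt n‖ ^ 4 := by
  have h1 : ∫ x in Q n, (fn x - fn (pt n)) = (∫ x in Q n, fn x) - fn (pt n) := by
    rw [integral_sub (fn_int hn) (by
      rw [integrable_const_iff]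
      right
      constructor
      rw [Measure.restrict_apply_univ, Q_vol]
      simp)]
    rw [setIntegral_const]
    simp [Measure.real, Q_vol]
  rw [abs_sub_comm, ← h1, ← Real.norm_eq_abs]
  have h2 := norm_setIntegral_le_of_norm_le_const (μ := volume) (s := Q n)
    (f := fun x => fn x - fn (pt n)) (C := 189 / ‖pt n‖ ^ 4) (by rw [Q_vol]; simp)
    (fun x hx => by rw [Real.norm_eq_abs]; exact fn_cmp hn hx)
  simpa [Measure.real, Q_vol] using h2

/-! ### The integral over an annulus -/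

/-- An annulus. -/
def Ann (a b : ℝ) : Set W := {x | a ≤ ‖x‖ ∧ ‖x‖ ≤ b}

lemma Ann_meas (a b : ℝ) : MeasurableSet (Ann a b) :=
  (measurableSet_le measurable_const measurable_norm).inter
    (measurableSet_le measurable_norm measurable_const)

lemma Ann_int {a b : ℝ} (ha : 0 < a) (hab : a ≤ b) :
    ∫ x in Ann a b, fn x = 4 * Real.pi * Real.log (b / a) := by
  have h1 : ∫ x in Ann a b, fn x = ∫ x : W, (Icc a b).indicator (fun r => 1 / r ^ 3) ‖x‖ := by
    rw [← integral_indicator (Ann_meas a b)]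
    rfl
  rw [h1, integral_fun_norm_addHaar volume (fun r => (Icc a b).indicator (fun r => 1 / r ^ 3) r)]
  have hd : Module.finrank ℝ W = 3 := by simp
  have hv : (volume : Measure W).real (Metric.ball 0 1) = Real.pi * 4 / 3 := by
    unfold Measure.real
    rw [EuclideanSpace.volume_ball_fin_three, ENNReal.ofReal_one, one_pow, one_mul,
      ENNReal.toReal_ofReal (by positivity)]
  rw [hd, hv]
  have h2 : ∫ y in Ioi (0 : ℝ), y ^ (3 - 1) • (Icc a b).indicator (fun r => 1 / r ^ 3) y =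
      Real.log (b / a) := by
    have h3 : ∀ y : ℝ, y ^ (3 - 1) • (Icc a b).indicator (fun r : ℝ => 1 / r ^ 3) y =
        (Icc a b).indicator (fun r : ℝ => r⁻¹) y := by
      intro y
      by_cases hy : y ∈ Icc a b
      · rw [indicator_of_mem hy, indicator_of_mem hy, smul_eq_mul]
        have : 0 < y := lt_of_lt_of_le ha hy.1
        field_simp
      · rw [indicator_of_notMem hy, indicator_of_notMem hy, smul_zero]
    simp_rw [h3]
    rw [setIntegral_indicator measurableSet_Icc]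
    have h4 : Ioi (0:ℝ) ∩ Icc a b = Icc a b := by
      rw [inter_eq_right]
      intro y hy
      exact lt_of_lt_of_le ha hy.1
    rw [h4, integral_Icc_eq_integral_Ioc, ← intervalIntegral.integral_of_le hab,
      integral_inv_of_pos ha (lt_of_lt_of_le ha hab)]
  rw [h2]
  simp only [smul_eq_mul, nsmul_eq_mul]
  push_cast
  ring

lemma Ann_fn_int {a b : ℝ} (ha : 0 < a) : IntegrableOn fn (Ann a b) := by
  have hsub : Ann a b ⊆ Metric.closedBall 0 b := by
    intro x hx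
    rw [mem_closedBall_zero_iff]
    exact hx.2
  have hfin : volume (Ann a b) < ⊤ :=
    lt_of_le_of_lt (measure_mono hsub) measure_closedBall_lt_top
  refine Measure.integrableOn_of_bounded (M := 1 / a ^ 3) hfin.ne
    fn_meas.aestronglyMeasurable ?_
  refine (ae_restrict_iff' (Ann_meas a b)).2 (ae_of_all _ (fun x hx => ?_))
  rw [Real.norm_of_nonneg (fn_nonneg x)]
  unfold fn
  apply one_div_le_one_div_of_le (by positivity)
  exact pow_le_pow_left₀ ha.le hx.1 3

/-! ### The box -/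

/-- The integer point of a momentum. -/
def nn {L : ℕ} (k : Pool.Agent.Y16.AF.Sp L) : Fin 3 → ℤ := fun j => (k j).valMinAbs

lemma nn_inj {L : ℕ} : Function.Injective (nn (L := L)) := by
  intro k k' h
  funext j
  exact ZMod.injective_valMinAbs (congrFun h j)

lemma nn_ne {L : ℕ} {k : Pool.Agent.Y16.AF.Sp L} (hk : k ≠ 0) : nn k ≠ 0 := by
  intro h
  apply hk
  funext j
  exact (ZMod.valMinAbs_eq_zero _).1 (congrFun h j)

/-- The nonzero momenta. -/
def S (L : ℕ) [NeZero L] : Finset (Pool.Agent.Y16.AF.Sp L) := Finset.univ.filter (fun k => k ≠ 0)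

lemma sum_int (L : ℕ) [NeZero L] :
    ∑ k ∈ S L, ∫ x in Q (nn k), fn x = ∫ x in ⋃ k ∈ S L, Q (nn k), fn x := by
  rw [integral_biUnion_finset]
  · intro k _
    exact Q_meas _
  · intro k _ k' _ hkk'
    exact Q_disj (fun h => hkk' (nn_inj h))
  · intro k hk
    exact fn_int (nn_ne (Finset.mem_filter.1 hk).2)

lemma U_sub (L : ℕ) [NeZero L] (hL : 2 ≤ L) : (⋃ k ∈ S L, Q (nn k)) ⊆ Ann (1 / 2) (2 * L) := by
  intro x hx
  simp only [mem_iUnion] at hx
  obtain ⟨k, hk, hx⟩ := hx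
  refine ⟨Q_ge (nn_ne (Finset.mem_filter.1 hk).2) hx, ?_⟩
  have hL' : (2:ℝ) ≤ L := by exact_mod_cast hL
  have h1 : ∀ j, x j ^ 2 ≤ L ^ 2 := by
    intro j
    have h2 := hx j
    have h3 := ZMod.valMinAbs_mem_Ioc (k j)
    have h4 : (-(L:ℝ)) < ((k j).valMinAbs : ℝ) * 2 := by exact_mod_cast h3.1
    have h5 : ((k j).valMinAbs : ℝ) * 2 ≤ L := by exact_mod_cast h3.2
    have e : (nn k j : ℝ) = ((k j).valMinAbs : ℝ) := rfl
    rw [e] at h2
    apply sq_le_sq'
    · linarith [h2.1]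
    · linarith [h2.2]
  have h6 : ‖x‖ ^ 2 ≤ (2 * L) ^ 2 := by
    rw [norm_sq_eq, Fin.sum_univ_three]
    nlinarith [h1 0, h1 1, h1 2]
  exact (abs_le_of_sq_le_sq' h6 (by positivity)).2

lemma U_sup (L : ℕ) [NeZero L] :
    Ann 1 (((L:ℝ) - 1) / 2) ⊆ ⋃ k ∈ S L, Q (nn k) := by
  intro x hx
  simp only [mem_iUnion]
  -- the nearest integer point
  set m : Fin 3 → ℤ := fun j => ⌊x j + 1 / 2⌋ with hm
  have hxm : x ∈ Q m := by
    intro j
    have h1 := Int.floor_le (x j + 1 / 2)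
    have h2 := Int.lt_floor_add_one (x j + 1 / 2)
    constructor
    · show ((⌊x j + 1 / 2⌋ : ℤ) : ℝ) - 1 / 2 ≤ x j
      linarith
    · show x j < ((⌊x j + 1 / 2⌋ : ℤ) : ℝ) + 1 / 2
      linarith
  have hbd : ∀ j, -(L:ℤ) < m j * 2 ∧ m j * 2 ≤ L := by
    intro j
    have h1 := (coord_le x j).trans hx.2
    rw [abs_le] at h1
    have h2 := hxm j
    constructor
    · have : (-(L:ℝ)) < (m j : ℝ) * 2 := by linarith [h1.1, h2.2]
      exact_mod_cast this
    · have : (m j : ℝ) * 2 ≤ L := by linarith [h1.2, h2.1]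
      exact_mod_cast this
  set k : Pool.Agent.Y16.AF.Sp L := fun j => (m j : ZMod L) with hk
  have hkm : nn k = m := by
    funext j
    show (k j).valMinAbs = m j
    rw [ZMod.valMinAbs_spec]
    exact ⟨rfl, hbd j⟩
  refine ⟨k, ?_, by rw [hkm]; exact hxm⟩
  refine Finset.mem_filter.2 ⟨Finset.mem_univ _, ?_⟩
  intro hk0
  have hm0 : m = 0 := by
    rw [← hkm, hk0]
    funext j
    show (0 : ZMod L).valMinAbs = 0
    exact ZMod.valMinAbs_zero _
  have h3 : ‖x‖ ^ 2 ≤ 3 / 4 := by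
    rw [norm_sq_eq]
    have : ∀ j, x j ^ 2 ≤ 1 / 4 := by
      intro j
      have h4 := hxm j
      rw [hm0] at h4
      simp only [Pi.zero_apply, Int.cast_zero] at h4
      nlinarith [h4.1, h4.2]
    rw [Fin.sum_univ_three]
    linarith [this 0, this 1, this 2]
  have h5 := hx.1
  nlinarith

lemma int_bound (L : ℕ) [NeZero L] (hL : 2 ≤ L) :
    |(∑ k ∈ S L, ∫ x in Q (nn k), fn x) - 4 * Real.pi * Real.log L| ≤
      4 * Real.pi * Real.log 4 := by
  have hL' : (2:ℝ) ≤ L := by exact_mod_cast hL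
  have hpi := Real.pi_pos
  rw [sum_int]
  have hUm : MeasurableSet (⋃ k ∈ S L, Q (nn k)) :=
    Finset.measurableSet_biUnion _ (fun k _ => Q_meas _)
  have hUi : IntegrableOn fn (⋃ k ∈ S L, Q (nn k)) :=
    (Ann_fn_int (by norm_num)).mono_set (U_sub L hL)
  have hup : ∫ x in ⋃ k ∈ S L, Q (nn k), fn x ≤ 4 * Real.pi * (Real.log L + Real.log 4) := by
    calc ∫ x in ⋃ k ∈ S L, Q (nn k), fn x ≤ ∫ x in Ann (1 / 2) (2 * L), fn x :=
          setIntegral_mono_set (Ann_fn_int (by norm_num)) (ae_of_all _ fn_nonneg)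
            (U_sub L hL).eventuallyLE
      _ = 4 * Real.pi * Real.log (2 * L / (1 / 2)) := Ann_int (by norm_num) (by linarith)
      _ = 4 * Real.pi * (Real.log L + Real.log 4) := by
          rw [show (2 * (L:ℝ) / (1 / 2)) = L * 4 by ring, Real.log_mul (by positivity) (by norm_num)]
  have hlow : 4 * Real.pi * (Real.log L - Real.log 4) ≤ ∫ x in ⋃ k ∈ S L, Q (nn k), fn x := by
    have h1 : Real.log L - Real.log 4 ≤ Real.log (((L:ℝ) - 1) / 2) := by
      rw [← Real.log_div (by positivity) (by norm_num)]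
      apply Real.log_le_log (by positivity)
      linarith
    rcases le_or_gt 1 (((L:ℝ) - 1) / 2) with h | h
    · calc 4 * Real.pi * (Real.log L - Real.log 4) ≤ 4 * Real.pi * Real.log (((L:ℝ) - 1) / 2 / 1) := by
            rw [div_one]
            exact mul_le_mul_of_nonneg_left h1 (by positivity)
        _ = ∫ x in Ann 1 (((L:ℝ) - 1) / 2), fn x := (Ann_int (by norm_num) h).symm
        _ ≤ ∫ x in ⋃ k ∈ S L, Q (nn k), fn x :=
            setIntegral_mono_set hUi (ae_of_all _ fn_nonneg) (U_sup L).eventuallyLE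
    · have h2 : Real.log (((L:ℝ) - 1) / 2) ≤ 0 := Real.log_nonpos (by linarith) h.le
      have h3 : 0 ≤ ∫ x in ⋃ k ∈ S L, Q (nn k), fn x := integral_nonneg fn_nonneg
      have h4 : 4 * Real.pi * (Real.log L - Real.log 4) ≤ 0 :=
        mul_nonpos_of_nonneg_of_nonpos (by positivity) (by linarith)
      linarith
  rw [abs_le]
  constructor <;> linarith

/-! ### The error -/

/-- The one dimensional weight. -/
noncomputable def gw (m : ℤ) : ℝ := (1 + |(m : ℝ)|) ^ (-(4 / 3) : ℝ)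

lemma gw_pos (m : ℤ) : 0 < gw m := by
  unfold gw
  positivity

lemma gw_summable : Summable gw := by
  have h0 : Summable (fun n : ℕ => (1 + (n : ℝ)) ^ (-(4 / 3) : ℝ)) := by
    have h1 : Summable (fun n : ℕ => ((n : ℝ)) ^ (-(4 / 3) : ℝ)) :=
      Real.summable_nat_rpow.2 (by norm_num)
    have h2 := (summable_nat_add_iff 1).2 h1
    refine h2.congr (fun n => ?_)
    push_cast
    rw [add_comm]
  apply Summable.of_nat_of_neg
  · refine h0.congr (fun n => ?_)
    unfold gw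
    rw [Int.cast_natCast, abs_of_nonneg (by positivity)]
  · refine h0.congr (fun n => ?_)
    unfold gw
    rw [Int.cast_neg, Int.cast_natCast, abs_neg, abs_of_nonneg (by positivity)]

lemma err_term {n : Fin 3 → ℤ} (hn : n ≠ 0) : 1 / ‖pt n‖ ^ 4 ≤ 16 * ∏ j, gw (n j) := by
  have h1 := pt_ge hn
  set b := ‖pt n‖ with hb
  have hb0 : 0 < b := by linarith
  have h2 : ∀ j, (2 * b) ^ (-(4 / 3) : ℝ) ≤ gw (n j) := by
    intro j
    unfold gw
    apply Real.rpow_le_rpow_of_nonpos (by positivity) _ (by norm_num)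
    have h3 := coord_le (pt n) j
    rw [pt_apply, ← hb] at h3
    linarith
  have h4 : ((2 * b) ^ (-(4 / 3) : ℝ)) ^ 3 ≤ ∏ j, gw (n j) := by
    rw [Fin.prod_univ_three]
    have p0 : 0 < (2 * b) ^ (-(4 / 3) : ℝ) := by positivity
    calc ((2 * b) ^ (-(4 / 3) : ℝ)) ^ 3 = (2 * b) ^ (-(4 / 3) : ℝ) * (2 * b) ^ (-(4 / 3) : ℝ) *
          (2 * b) ^ (-(4 / 3) : ℝ) := by ring
      _ ≤ gw (n 0) * gw (n 1) * gw (n 2) := by
          apply mul_le_mul (mul_le_mul (h2 0) (h2 1) p0.le (gw_pos _).le) (h2 2) p0.le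
          exact (mul_pos (gw_pos _) (gw_pos _)).le
  have h5 : ((2 * b) ^ (-(4 / 3) : ℝ)) ^ 3 = 1 / (2 * b) ^ 4 := by
    rw [← Real.rpow_natCast ((2 * b) ^ (-(4 / 3) : ℝ)) 3, ← Real.rpow_mul (by positivity)]
    rw [show (-(4 / 3) : ℝ) * ((3 : ℕ) : ℝ) = -((4 : ℕ) : ℝ) by norm_num,
      Real.rpow_neg (by positivity), Real.rpow_natCast, one_div]
  rw [h5] at h4
  calc 1 / b ^ 4 = 16 * (1 / (2 * b) ^ 4) := by
        rw [mul_pow]
        field_simp
        norm_num
    _ ≤ 16 * ∏ j, gw (n j) := by linarith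

lemma err_sum (L : ℕ) [NeZero L] : ∑ k ∈ S L, 1 / ‖pt (nn k)‖ ^ 4 ≤ 16 * (∑' m, gw m) ^ 3 := by
  calc ∑ k ∈ S L, 1 / ‖pt (nn k)‖ ^ 4 ≤ ∑ k ∈ S L, 16 * ∏ j, gw (nn k j) :=
        Finset.sum_le_sum (fun k hk => err_term (nn_ne (Finset.mem_filter.1 hk).2))
    _ ≤ ∑ k : Pool.Agent.Y16.AF.Sp L, 16 * ∏ j, gw (nn k j) := by
        apply Finset.sum_le_sum_of_subset_of_nonneg (Finset.filter_subset _ _)
        intro k _ _
        have : 0 < ∏ j, gw (nn k j) := Finset.prod_pos (fun j _ => gw_pos _)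
        linarith
    _ = 16 * ∏ _j : Fin 3, ∑ a : ZMod L, gw a.valMinAbs := by
        rw [← Finset.mul_sum, Finset.prod_univ_sum]
        congr 1
    _ ≤ 16 * (∑' m, gw m) ^ 3 := by
        have h1 : ∑ a : ZMod L, gw a.valMinAbs ≤ ∑' m, gw m := by
          have h2 : ∑ a : ZMod L, gw a.valMinAbs =
              ∑ m ∈ Finset.univ.image (fun a : ZMod L => a.valMinAbs), gw m := by
            rw [Finset.sum_image]
            intro a _ b _ h
            exact ZMod.injective_valMinAbs h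
          rw [h2]
          exact gw_summable.sum_le_tsum _ (fun m _ => (gw_pos m).le)
        have h0 : 0 ≤ ∑ a : ZMod L, gw a.valMinAbs := Finset.sum_nonneg (fun a _ => (gw_pos _).le)
        rw [Finset.prod_const, Finset.card_univ, Fintype.card_fin]
        have := pow_le_pow_left₀ h0 h1 3
        linarith

/-- Job AF-Z3. -/
theorem af_z3 : Pool.Agent.Y16.AF.S_Z3 := by
  refine ⟨4 * Real.pi * Real.log 4 + 189 * (16 * (∑' m, gw m) ^ 3), ?_⟩
  intro L _ hL
  have h1 := int_bound L hL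
  have h2 : |(∑ k ∈ S L, fn (pt (nn k))) - ∑ k ∈ S L, ∫ x in Q (nn k), fn x| ≤
      189 * (16 * (∑' m, gw m) ^ 3) := by
    rw [← Finset.sum_sub_distrib]
    calc |∑ k ∈ S L, (fn (pt (nn k)) - ∫ x in Q (nn k), fn x)| ≤
          ∑ k ∈ S L, |fn (pt (nn k)) - ∫ x in Q (nn k), fn x| := Finset.abs_sum_le_sum_abs _ _
      _ ≤ ∑ k ∈ S L, 189 * (1 / ‖pt (nn k)‖ ^ 4) := by
          apply Finset.sum_le_sum
          intro k hk
          have := Q_cmp (nn_ne (Finset.mem_filter.1 hk).2)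
          rw [mul_one_div]
          exact this
      _ = 189 * ∑ k ∈ S L, 1 / ‖pt (nn k)‖ ^ 4 := by rw [Finset.mul_sum]
      _ ≤ 189 * (16 * (∑' m, gw m) ^ 3) := by
          have := err_sum L
          linarith
  have h3 : (∑ k ∈ Finset.univ.filter (fun k : Pool.Agent.Y16.AF.Sp L => k ≠ 0),
      1 / Real.sqrt (∑ j, (((k j).valMinAbs : ℤ) : ℝ) ^ 2) ^ 3) = ∑ k ∈ S L, fn (pt (nn k)) := by
    apply Finset.sum_congr rfl
    intro k _
    unfold fn
    rw [EuclideanSpace.norm_eq]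
    congr 3
    apply Finset.sum_congr rfl
    intro j _
    rw [Real.norm_eq_abs, sq_abs]
    rfl
  rw [h3]
  rw [abs_le] at h1 h2 ⊢
  constructor <;> linarith [h1.1, h1.2, h2.1, h2.2]

end Pool.Agent.Y828.AF
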